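import Mathlib
import Pool.Agent.H23.QM2

namespace Pool.Agent.Results.MP_9a65c4_lc.QuasiMin
open Nat.Partrec (Code)
open Nat.Partrec.Code Denumerable Encodable Pool.Agent.H23.QM

/-- The initial segment `p 0, …, p (k-1)`. -/
def pre (p : ℕ → ℕ) (k : ℕ) : List ℕ := (List.range k).map p

/-- The machine `α` sends input `p` to output `q`: `α (n, σ) = m + 1` means that the finite
part `σ` of the input already yields output digit `m` at place `n`; `0` means no answer yet. -/
def Comp (α : ℕ × List ℕ → ℕ) (p q : ℕ → ℕ) : Prop :=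
  ∀ n, (∃ k, α (n, pre p k) ≠ 0) ∧ ∀ k m, α (n, pre p k) = m + 1 → q n = m

/-- `y ≤_T x` for points given by their sets of names `Y`, `X`. -/
def LeT (Y X : Set (ℕ → ℕ)) : Prop :=
  ∃ α, Computable α ∧ ∀ p ∈ X, ∃ q ∈ Y, Comp α p q

/-- A point is computable if it has a computable name. -/
def CompPt (X : Set (ℕ → ℕ)) : Prop := ∃ p ∈ X, Computable p

/-- Names of `A` in the enumeration space. -/
def enum (A : Set ℕ) : Set (ℕ → ℕ) := {p | A = {k | ∃ n, p n = k + 1}}

/-- Names of a functional: its Kleene associates. -/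
def assoc (Φ : (ℕ → ℕ) → ℕ) : Set (ℕ → ℕ) :=
  {q | ∀ g, (∃ k, q (encode (pre g k)) ≠ 0) ∧ ∀ k m, q (encode (pre g k)) = m + 1 → Φ g = m}

open Classical in
noncomputable def h (n : ℕ) : ℕ := if InF 0 n then v n else 0

def AA (g : ℕ → ℕ) : Set ℕ := {a | g a.unpair.1 ≤ a.unpair.2}

theorem getD_pre (g : ℕ → ℕ) (m i : ℕ) : (pre g m).getD i 0 = if i < m then g i else 0 := by
  split_ifs with k
  · simp [pre, List.getD_eq_getElem?_getD, k]
  · exact List.getD_eq_default _ _ (by simpa [pre] using k)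

theorem len_pre (g : ℕ → ℕ) (m : ℕ) : (pre g m).length = m := by simp [pre]

def Q (c : Code) (g : ℕ → ℕ) : Prop := ∀ f : ℕ → ℕ,
  (∀ t w y, (∀ a, a + 1 ∈ lw w → a ∈ AA g) → (evaln t c w).getD 0 = y + 1 → f w.unpair.1 = y) →
  (∀ x, ∃ t w, w.unpair.1 = x ∧ (∀ a, a + 1 ∈ lw w → a ∈ AA g) ∧ (evaln t c w).getD 0 ≠ 0) →
  Computable f

theorem step (c : Code) (m : ℕ) (g0 : ℕ → ℕ) (h0 : ∀ n, h n ≤ g0 n) :
    ∃ r : ℕ × (ℕ → ℕ), m < r.1 ∧ (∀ n, h n ≤ r.2 n) ∧ (∀ n < m, r.2 n = g0 n) ∧
      ∀ g, (∀ n, h n ≤ g n) → (∀ n < r.1, g n = r.2 n) → Q c g := by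
  let e := Nat.pair (encode c) (encode (pre g0 m))
  have e1 : sg e = pre g0 m := by simp [sg, e]
  have e2 : ∀ t w, ev t e w = (evaln t c w).getD 0 := fun t w => by simp [ev, e]
  have hv : ∀ n, h n ≤ v n := fun n => by unfold h; split_ifs <;> simp
  rcases outcome e with ⟨t, w, w', h1, h2, h3, h4, h5, h6⟩ | h1
  · refine ⟨(m + w + w' + 1, fun n => if n < m then g0 n else h n), by omega, fun n => ?_,
      fun n hn => if_pos hn, fun g _ h7 f h8 _ => absurd ?_ h6⟩
    · dsimp only
      split_ifs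
      exacts [h0 n, le_rfl]
    have key : ∀ u ≤ w + w', V (sg e) (lw u) (InF e) → ev t e u ≠ 0 →
        ev t e u = f u.unpair.1 + 1 := fun u hu k1 k2 => by
      obtain ⟨y, hy⟩ := Nat.exists_eq_succ_of_ne_zero k2
      rw [hy, h8 t u y (fun a ha => ?_) (e2 t u ▸ hy)]
      have k3 := k1 a ha
      have k4 := lt_encode ha
      rw [lw, encode_ofNat] at k4
      have := Nat.unpair_right_le u
      have := Nat.unpair_left_le a
      rw [e1, len_pre, getD_pre] at k3
      change g _ ≤ _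
      rw [h7 _ (by dsimp only; omega)]
      dsimp only
      split_ifs at k3 ⊢
      · exact k3
      · unfold h
        split_ifs with k5
        exacts [k3 (k5.imp fun _ k => k.mono le_rfl e.zero_le), Nat.zero_le _]
    rw [key w (by omega) h2 h4, key w' (by omega) h3 h5, h1]
  obtain ⟨M, hM⟩ := (fin_diff (e + 1)).bddAbove
  refine ⟨(m + M + 1, fun n => if n < m then g0 n else v n), by omega, fun n => ?_,
    fun n hn => if_pos hn, fun g h2 h3 f h4 h5 => ?_⟩
  · dsimp only
    split_ifs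
    exacts [h0 n, hv n]
  dsimp only at h3
  have key : ∀ w, (∀ a, a + 1 ∈ lw w → a ∈ AA g) → V (sg e) (lw w) (InF (e + 1)) :=
    fun w hw a ha => by
      have k1 : g _ ≤ _ := hw a ha
      rw [e1, len_pre, getD_pre]
      split_ifs with k2
      · rwa [h3 _ (by omega), if_pos k2] at k1
      intro k3
      by_cases k4 : InF 0 a.unpair.1
      · exact (if_pos k4).ge.trans ((h2 _).trans k1)
      · have := hM ⟨k3, k4⟩
        rwa [h3 _ (by omega), if_neg k2] at k1
  rcases h1 with ⟨x, h1⟩ | ⟨f', h1, h6⟩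
  · obtain ⟨t, w, k1, k2, k3⟩ := h5 x
    exact absurd (e2 t w ▸ h1 t w k1 (key w k2)) k3
  · refine (Primrec.pred.to_comp.comp h1).of_eq fun x => ?_
    obtain ⟨t, w, rfl, k2, k3⟩ := h5 x
    obtain ⟨y, hy⟩ := Nat.exists_eq_succ_of_ne_zero k3
    rw [← h6 t w ((key w k2).mono fun n _ k => k.imp fun _ k => k.mono le_rfl e.le_succ)
      (e2 t w ▸ k3), e2, hy, h4 t w y k2 hy]
    rfl

theorem generic : ∃ g, (∀ n, h n ≤ g n) ∧ ∀ c, Q c g := by
  choose! F h1 h2 h3 h4 using step
  let r : ℕ → ℕ × (ℕ → ℕ) := fun k => Nat.rec (0, h) (fun k p => F (ofNat Code k) p.1 p.2) k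
  have k1 : ∀ k n, h n ≤ (r k).2 n := fun k => by
    induction k with
    | zero => exact fun _ => le_rfl
    | succ k ih => exact h2 _ _ _ ih
  have k2 : StrictMono fun k => (r k).1 := strictMono_nat_of_lt_succ fun k => h1 _ _ _ (k1 k)
  have k3 : ∀ k, ∀ n < (r k).1, ∀ j ≥ k, (r j).2 n = (r k).2 n := fun k n hn j hj => by
    induction j, hj using Nat.le_induction with
    | base => rfl
    | succ j hj ih => exact (h3 _ _ _ (k1 j) n (hn.trans_le (k2.monotone hj))).trans ih
  refine ⟨fun n => (r (n + 1)).2 n, fun n => k1 (n + 1) n, fun c => ?_⟩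
  have := h4 (ofNat Code (encode c)) _ _ (k1 (encode c)) _ (fun n => k1 (n + 1) n) fun n hn =>
    (k3 (n + 1) n (k2.le_apply (x := n + 1)) _ (le_max_left _ _)).symm.trans
      (k3 (encode c + 1) n hn _ (le_max_right _ _))
  rwa [ofNat_encode] at this

def hs (j n : ℕ) : ℕ := bif lv (St j) n == 0 then vS j n else 0

theorem hs_le (j n : ℕ) : hs j n ≤ h n := by
  unfold hs h
  cases k : lv (St j) n == 0
  · simp
  · have k1 : L j n = 0 := beq_iff_eq.1 k
    simp [show InF 0 n from ⟨j, k1.le, by omega⟩, v_eq (iss (s := j) (n := n) (by omega))]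

def Fire (g : ℕ → ℕ) (k : ℕ) : Prop :=
  (∀ i < k, g (i + 1) = 0) ∧ g (k + 1) ≠ 0 ∧ k < hs (g (k + 1) - 1) (g 0)

open Classical in
noncomputable def Φ (g : ℕ → ℕ) : ℕ := if ∃ k, Fire g k then 1 else 0

def qf (l σ : List ℕ) : ℕ :=
  bif (List.range l.length).any fun k => !(l.getD (k + 1) 0 == 0) then
    (bif (List.range l.length).any fun k => ((List.range k).all fun i => l.getD (i + 1) 0 == 0) &&
      !(l.getD (k + 1) 0 == 0) && Nat.blt k (hs (l.getD (k + 1) 0 - 1) (l.getD 0 0)) then 2 else 1)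
  else bif σ.any fun a => !(a == 0) && (a - 1).unpair.1 == l.getD 0 0 &&
    Nat.blt (a - 1).unpair.2 l.length then 1 else 0

theorem qf_p : Primrec fun p : List ℕ × List ℕ => qf p.1 p.2 := by
  unfold qf hs; fun_prop

def qq (p : ℕ → ℕ) (x : ℕ) : ℕ := qf (ofNat (List ℕ) x) (pre p (ofNat (List ℕ) x).length)

theorem qq_assoc {g0 p : ℕ → ℕ} (h0 : ∀ n, h n ≤ g0 n) (hp : p ∈ enum (AA g0)) :
    qq p ∈ assoc Φ := fun g => by
  have e : ∀ m, qq p (encode (pre g m)) = qf (pre g m) (pre p m) := fun m => by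
    simp [qq, len_pre]
  simp only [e, qf, len_pre, getD_pre, cond_eq_ite, List.any_eq_true, List.all_eq_true,
    List.mem_range, Bool.and_eq_true, Bool.not_eq_true', beq_eq_false_iff_ne, beq_iff_eq,
    Nat.blt_eq]
  refine ⟨?_, fun m y => ?_⟩
  · obtain ⟨n, hn⟩ := hp.le (show Nat.pair (g 0) (g0 (g 0)) ∈ AA g0 by simp [AA])
    refine ⟨n + g0 (g 0) + 1, ?_⟩
    simp only [Nat.zero_lt_succ, if_true]
    split_ifs with k1 k2 k3
    · simp
    · simp
    · simp
    · exact absurd ⟨_, List.mem_map.2 ⟨n, List.mem_range.2 (by omega), hn⟩, by simp⟩ k3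
  · unfold Φ
    by_cases k1 : ∃ k < m, (if k + 1 < m then g (k + 1) else 0) ≠ 0
    · rw [if_pos k1]
      obtain ⟨j, -, k2⟩ := k1
      have k3 : j + 1 < m := by by_contra k; simp [k] at k2
      rw [if_pos k3] at k2
      suffices H : (∃ k < m, ((∀ i < k, (if i + 1 < m then g (i + 1) else 0) = 0) ∧
          (if k + 1 < m then g (k + 1) else 0) ≠ 0) ∧ k < hs ((if k + 1 < m then g (k + 1) else 0)
            - 1) (if 0 < m then g 0 else 0)) ↔ ∃ k, Fire g k by
        by_cases k : ∃ k, Fire g k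
        · rw [if_pos (H.2 k), if_pos k]
          omega
        · rw [if_neg (mt H.1 k), if_neg k]
          omega
      refine ⟨fun ⟨k, _, ⟨a, b⟩, c⟩ => ?_, fun ⟨k, a, b, c⟩ => ?_⟩
      · have k4 : k + 1 < m := by by_contra k; simp [k] at b
        simp only [k4, if_true, show 0 < m by omega] at b c
        exact ⟨k, fun i hi => by simpa [show i + 1 < m by omega] using a i hi, b, c⟩
      · have k4 : k ≤ j := not_lt.1 fun k => k2 (a j k)
        simp only [show 0 < m by omega, if_true]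
        exact ⟨k, by omega, ⟨fun i hi => by simp [a i hi], by rwa [if_pos (by omega)]⟩,
          by rwa [if_pos (by omega)]⟩
    · rw [if_neg k1]
      intro k0
      obtain ⟨k2, k0⟩ := ite_eq_iff.1 k0 |>.resolve_right (by simp)
      rw [if_neg fun k3 => ?_]
      · omega
      · obtain ⟨a, k4, ⟨k5, k6⟩, k7⟩ := k2
        obtain ⟨k, -, b, c⟩ := k3
        obtain ⟨n, -, rfl⟩ := List.mem_map.1 k4
        have k8 : g0 _ ≤ _ := hp.ge (show p n - 1 ∈ {k | ∃ n, p n = k + 1} from ⟨n, by omega⟩)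
        rw [if_pos (by omega)] at k6
        have k9 : ¬ k + 1 < m := fun k' => k1 ⟨k, by omega, by rwa [if_pos k']⟩
        have := hs_le (g (k + 1) - 1) (g 0)
        have := h0 (g 0)
        rw [k6] at k8
        omega

theorem not_comp : ¬ CompPt (assoc Φ) := by
  rintro ⟨q, h1, h2⟩
  let G : ℕ → ℕ → ℕ := fun n i => bif i == 0 then n else 0
  have h3 : Computable fun n => Nat.find (h1 (G n)).1 := Computable.find
    (P := fun n k => q (encode (pre (G n) k)) ≠ 0) (ComputablePred.computable_iff.2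
      ⟨fun r : ℕ × ℕ => !(q (encode (pre (G r.1) r.2)) == 0),
        (show Primrec fun x : ℕ => !(x == 0) by fun_prop).to_comp.comp (h2.comp
          (show Primrec _ by simp only [pre, G]; fun_prop).to_comp), by simp⟩) _
  obtain ⟨n, ⟨j, h4⟩, h5⟩ := undom h3
  have h6 := Nat.find_spec (h1 (G n)).1
  generalize Nat.find (h1 (G n)).1 = u at h5 h6
  obtain ⟨y, hy⟩ := Nat.exists_eq_succ_of_ne_zero h6
  let g : ℕ → ℕ := fun i => if i = u + 1 then j + 1 else G n i
  have h7 := (h1 g).2 u y (Eq.trans (congrArg _ (congrArg _ (List.map_congr_left fun i hi =>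
      if_neg (by have := List.mem_range.1 hi; omega)))) hy)
  have h8 := (h1 (G n)).2 u y hy
  rw [Φ, if_neg fun ⟨k, h⟩ => h.2.1 rfl] at h8
  rw [Φ, if_pos ⟨u, fun i hi => if_neg (by omega), by simp [g], by
    simp [g, G, hs, show lv (St j) n = 0 from Nat.le_zero.1 h4.1, v_eq (iss h4.2), h5]⟩] at h7
  omega

theorem pre_comp {p : ℕ → ℕ} (hp : Computable p) : Computable (pre p) :=
  (Computable.nat_rec (h := fun _ r => r.2 ++ [p r.1]) Computable.id (Computable.const [])
    (Computable.list_concat.comp (Computable.snd.comp Computable.snd)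
      (hp.comp (Computable.fst.comp Computable.snd))).to₂).of_eq fun k => by
    induction k with
    | zero => rfl
    | succ k ih => simp only [id] at ih; simp [pre, List.range_succ, ih]

/-- There is a set `A` of quasi-minimal enumeration degree that computes a non-computable
continuous functional `Φ : ℕ^ℕ → ℕ`. -/
theorem result : ∃ A : Set ℕ,
    (¬ CompPt (enum A) ∧ ∀ f : ℕ → ℕ, LeT {f} (enum A) → CompPt {f}) ∧
    ∃ Φ : (ℕ → ℕ) → ℕ, Continuous Φ ∧ ¬ CompPt (assoc Φ) ∧ LeT (assoc Φ) (enum A) := by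
  classical
  obtain ⟨g, h1, h2⟩ := generic
  have ext : ∀ l : List ℕ, (∀ a, a + 1 ∈ l → a ∈ AA g) → ∃ p ∈ enum (AA g), pre p l.length = l :=
    fun l hl => by
      refine ⟨fun n => if n < l.length then l.getD n 0 else
        if n - l.length ∈ AA g then n - l.length + 1 else 0, Set.ext fun a =>
          ⟨fun ha => ⟨a + l.length, by simp [ha]⟩, fun ⟨n, hn⟩ => ?_⟩, ?_⟩
      · dsimp only at hn
        split_ifs at hn with k1 k2
        · exact hl a (by rw [← hn, List.getD_eq_getElem _ _ k1]; simp)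
        · exact Nat.succ_injective hn ▸ k2
      · exact List.ext_getElem (len_pre _ _) fun i k1 k2 => by simp [pre, k2]
  refine ⟨AA g, ⟨fun ⟨p, h3, h4⟩ => not_comp ⟨_, qq_assoc h1 h3, qf_p.to_comp.comp
    ((Computable.ofNat _).pair ((pre_comp h4).comp
      (Computable.list_length.comp (Computable.ofNat _))))⟩, fun f ⟨α, h3, h4⟩ => ⟨f, rfl, ?_⟩⟩,
    Φ, ?_, not_comp, fun r => bif Nat.ble (ofNat (List ℕ) r.1).length r.2.length then
      qf (ofNat (List ℕ) r.1) (r.2.take (ofNat (List ℕ) r.1).length) + 1 else 0,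
    Primrec.to_comp ?_, fun p hp => ⟨_, qq_assoc h1 hp, fun x => ⟨⟨(ofNat (List ℕ) x).length,
      by simp [len_pre, cond_eq_ite]⟩, fun k m => ?_⟩⟩⟩
  · obtain ⟨c, hc⟩ := exists_code.1 (show Nat.Partrec _ from h3)
    have e : ∀ x l, α (x, l) ∈ c.eval (Nat.pair x (encode l)) := fun x l => by
      simp [hc]
    refine h2 c f (fun t w y k1 k2 => ?_) fun x => ?_
    · obtain ⟨p, k3, k4⟩ := ext _ k1
      obtain ⟨_, rfl, k5⟩ := h4 p k3
      refine (k5 _).2 (lw w).length y ?_
      have k6 := e w.unpair.1 (lw w)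
      rw [lw, encode_ofNat, Nat.pair_unpair] at k6
      cases k7 : evaln t c w with
      | none => simp [k7] at k2
      | some z =>
        rw [k4, lw, Part.mem_unique k6 (evaln_sound k7)]
        simpa [k7] using k2
    · obtain ⟨p, k1, -⟩ := ext [] (by simp)
      obtain ⟨_, rfl, k2⟩ := h4 p k1
      obtain ⟨k, k3⟩ := (k2 x).1
      obtain ⟨t, k4⟩ := evaln_complete.1 (e x (pre p k))
      refine ⟨t, Nat.pair x (encode (pre p k)), by simp, fun a ha => ?_, by
        rwa [show evaln t c _ = some _ from k4]⟩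
      simp only [lw, Nat.unpair_pair, ofNat_encode, pre, List.mem_map] at ha
      obtain ⟨n, -, ha⟩ := ha
      exact k1.ge ⟨n, ha⟩
  · obtain ⟨p, k1, -⟩ := ext [] (by simp)
    refine continuous_iff_continuousAt.2 fun a => ?_
    obtain ⟨k, k2⟩ := (qq_assoc h1 k1 a).1
    obtain ⟨y, hy⟩ := Nat.exists_eq_succ_of_ne_zero k2
    refine tendsto_const_nhds.congr' ?_
    filter_upwards [(Filter.eventually_all_finset (Finset.range k)).2 fun i _ =>
      (continuous_apply i).continuousAt.preimage_mem_nhds ((isOpen_discrete {a i}).mem_nhds rfl)]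
      with b hb
    rw [(qq_assoc h1 k1 a).2 k y hy, (qq_assoc h1 k1 b).2 k y ?_]
    exact Eq.trans (congrArg _ (congrArg _ (List.map_congr_left fun i hi =>
      hb i (by simpa using hi)))) hy
  · have : Primrec fun r : ℕ × List ℕ =>
        qf (ofNat (List ℕ) r.1) (r.2.take (ofNat (List ℕ) r.1).length) :=
      qf_p.comp (show Primrec fun r : ℕ × List ℕ =>
        (ofNat (List ℕ) r.1, r.2.take (ofNat (List ℕ) r.1).length) by fun_prop)
    fun_prop
  · simp only [cond_eq_ite, Nat.ble_eq, len_pre]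
    split_ifs with k1
    · intro k2
      rw [← Nat.succ_injective k2, qq, pre, pre, ← List.map_take, List.take_range, min_eq_left k1]
    · exact False.elim

end Pool.Agent.Results.MP_9a65c4_lc.QuasiMin
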